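import Pool.Agent.Q163.EX.Zq
import Pool.Agent.Q163.RX.Gen
import Pool.Agent.Q163.RX.Phases

/-! Almost sure bounds, uniform in large families of weights. -/

set_option autoImplicit false

namespace Pool.Agent.Q163.EX

open Finset MeasureTheory Filter Topology Pool.Agent.Q163.RP Pool.Agent.Q163.RX Pool.Agent.Q163.WM

/-- the sum of the `q ^ (-σ)` over the primes `q` of `Q` converges -/
def Cv (Q : Set ℕ) (σ : ℝ) : Prop := Summable fun p : ℕ => if p.Prime then cq Q σ p else 0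

/-- Markov for the moments -/
theorem tail_mom (P : Set ℕ) {s : ℕ → ℝ} (hs : ∀ p, s p = 1 ∨ s p = -1) (k : ℕ) (hk : 1 ≤ k) (σ : ℝ)
    (hσ : 1 / 2 < σ) (hQ : Cv Pᶜ σ) :
    ∃ C : ℝ, 0 < C ∧ ∀ (w : ℕ → ℝ), (∀ n, |w n| ≤ 1) → ∀ R : ℕ, 1 ≤ R → ∀ L : ℝ, 0 < L →
      cm.real {ω | L < |∑ n ∈ Icc 1 R, w n * mult (vl P s ω) n|} ≤
        C * (R : ℝ) ^ (2 * k * σ) / L ^ (2 * k) := by
  obtain ⟨C, hC, h⟩ := mom_all P hs k hk σ hσ hQ
  refine ⟨C, hC, fun w hw R hR L hL => ?_⟩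
  set F : (ℕ → Bool) → ℝ := fun ω => ∑ n ∈ Icc 1 R, w n * mult (vl P s ω) n with hF
  have hm : Measurable F := Finset.measurable_fun_sum _ fun n _ => (meas_mv P s n).const_mul _
  have hb : ∀ ω, |F ω| ≤ R := by
    intro ω
    refine (abs_sum_le_sum_abs _ _).trans ?_
    refine (sum_le_sum (g := fun _ => (1 : ℝ)) fun n _ => ?_).trans ?_
    · rw [abs_mul, abs_mv P hs, mul_one]
      exact hw n
    · rw [sum_const, nsmul_eq_mul, mul_one, Nat.card_Icc, Nat.add_sub_cancel]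
  have hint : Integrable (fun ω => F ω ^ (2 * k)) cm :=
    Integrable.of_bound (hm.pow_const _).aestronglyMeasurable ((R : ℝ) ^ (2 * k))
      (Eventually.of_forall fun ω => by
        rw [Real.norm_eq_abs, abs_pow]
        exact pow_le_pow_left₀ (abs_nonneg _) (hb ω) _)
  have h2 := mul_meas_ge_le_integral_of_nonneg (μ := cm) (f := fun ω => F ω ^ (2 * k))
    (Eventually.of_forall fun ω => (even_two_mul k).pow_nonneg _) hint (L ^ (2 * k))
  have h3 : cm.real {ω | L < |F ω|} ≤ cm.real {ω | L ^ (2 * k) ≤ F ω ^ (2 * k)} := by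
    refine measureReal_mono (fun ω hω => ?_)
    simp only [Set.mem_ofPred_eq] at hω ⊢
    rw [← (even_two_mul k).pow_abs (F ω)]
    exact pow_le_pow_left₀ hL.le hω.le _
  refine h3.trans ?_
  rw [le_div_iff₀ (by positivity), mul_comm]
  exact h2.trans (h w hw R hR)

theorem ae_fam (P : Set ℕ) {s : ℕ → ℝ} (hs : ∀ p, s p = 1 ∨ s p = -1) {σ' σ : ℝ} (hσ' : 1 / 2 < σ')
    (hlt : σ' < σ) (hQ : Cv Pᶜ σ') {τ : Type*} (T : ℕ → Finset τ) (W : ℕ → τ → ℕ → ℝ)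
    (hW : ∀ R t n, |W R t n| ≤ 1) (A : ℕ) (C0 : ℝ) (hC0 : 0 < C0)
    (hT : ∀ R : ℕ, 1 ≤ R → ((T R).card : ℝ) ≤ C0 * (R : ℝ) ^ A) :
    ∀ᵐ ω ∂cm, ∀ᶠ R : ℕ in atTop, ∀ t ∈ T R,
      |∑ n ∈ Icc 1 R, W R t n * mult (vl P s ω) n| ≤ (R : ℝ) ^ σ := by
  obtain ⟨k, hk⟩ := exists_nat_ge ((A + 3 : ℝ) / (σ - σ') + 1)
  have hd : 0 < σ - σ' := by linarith
  have hk1 : (1 : ℝ) ≤ k := by
    have : 0 ≤ (A + 3 : ℝ) / (σ - σ') := by positivity
    linarith
  have hkn : 1 ≤ k := by exact_mod_cast hk1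
  have hkA : (A + 3 : ℝ) ≤ 2 * k * (σ - σ') := by
    have h1 : (A + 3 : ℝ) / (σ - σ') ≤ k := by linarith
    rw [div_le_iff₀ hd] at h1
    nlinarith
  obtain ⟨C, hC, h⟩ := tail_mom P hs k hkn σ' hσ' hQ
  have h1 := bcf T (fun R t => {ω | (R : ℝ) ^ σ < |∑ n ∈ Icc 1 R, W R t n * mult (vl P s ω) n|}) (by
    obtain ⟨R0, hR0⟩ := exists_nat_ge (C * C0)
    filter_upwards [eventually_ge_atTop (max 1 R0)] with R hR t ht
    have hR1 : 1 ≤ R := (le_max_left _ _).trans hR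
    have hRR : (1 : ℝ) ≤ R := by exact_mod_cast hR1
    have hRp : (0 : ℝ) < R := by linarith
    have hRC : C * C0 ≤ R := hR0.trans (by exact_mod_cast (le_max_right _ _).trans hR)
    refine (h (W R t) (hW R t) R hR1 ((R : ℝ) ^ σ) (by positivity)).trans ?_
    have e1 : C * (R : ℝ) ^ (2 * k * σ') / ((R : ℝ) ^ σ) ^ (2 * k) =
        C * (R : ℝ) ^ (-(2 * k * (σ - σ'))) := by
      rw [← Real.rpow_natCast ((R : ℝ) ^ σ), ← Real.rpow_mul (by positivity), mul_div_assoc,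
        ← Real.rpow_sub hRp]
      push_cast
      congr 2
      ring
    rw [e1]
    have e2 : (R : ℝ) ^ (-(2 * k * (σ - σ'))) ≤ (R : ℝ) ^ (-(A + 3 : ℝ)) :=
      Real.rpow_le_rpow_of_exponent_le hRR (by linarith)
    have e3 : (R : ℝ) ^ (-(A + 3 : ℝ)) = 1 / ((R : ℝ) ^ A * (R : ℝ) ^ 3) := by
      rw [Real.rpow_neg (by positivity), Real.rpow_add hRp, Real.rpow_natCast, one_div]
      norm_cast
    have hcard : (0 : ℝ) < (T R).card := by
      exact_mod_cast card_pos.2 ⟨t, ht⟩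
    have hT' := hT R hR1
    rw [le_div_iff₀ (by positivity)]
    calc C * (R : ℝ) ^ (-(2 * k * (σ - σ'))) * ((T R).card * (R : ℝ) ^ 2)
        ≤ C * (1 / ((R : ℝ) ^ A * (R : ℝ) ^ 3)) * (C0 * (R : ℝ) ^ A * (R : ℝ) ^ 2) := by
          rw [← e3]
          gcongr
      _ = (C * C0) / R := by
          field_simp
      _ ≤ 1 := by rwa [div_le_one hRp]
      _ ≤ 2 := by norm_num)
  filter_upwards [h1] with ω hω
  filter_upwards [hω] with R hR t ht
  have := hR t ht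
  simp only [not_lt] at this
  exact this

/-- an eventual bound gives a bound for all `R` -/
theorem all_of_eventually {τ : Type*} (T : ℕ → Set τ) (F : ℕ → τ → ℝ) (σ : ℝ)
    (h0 : ∀ R, 1 ≤ R → ∀ t ∈ T R, F R t ≤ R)
    (h : ∀ᶠ R : ℕ in atTop, ∀ t ∈ T R, F R t ≤ (R : ℝ) ^ σ) (hσ : 0 ≤ σ) :
    ∃ C : ℝ, 0 < C ∧ ∀ R, 1 ≤ R → ∀ t ∈ T R, F R t ≤ C * (R : ℝ) ^ σ := by
  obtain ⟨R0, hR0⟩ := eventually_atTop.1 h
  refine ⟨R0 + 1, by positivity, fun R hR t ht => ?_⟩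
  have hRR : (1 : ℝ) ≤ R := by exact_mod_cast hR
  have h1 : (1 : ℝ) ≤ (R : ℝ) ^ σ := Real.one_le_rpow hRR hσ
  have h2 : (0 : ℝ) ≤ R0 := Nat.cast_nonneg _
  rcases le_or_gt R0 R with h3 | h3
  · have := hR0 R h3 t ht
    nlinarith
  · have h4 := h0 R hR t ht
    have h5 : (R : ℝ) ≤ R0 := by exact_mod_cast h3.le
    nlinarith

/-- the additive character -/
noncomputable def ee (x : ℝ) : ℂ := Complex.exp ((2 * Real.pi * x : ℝ) * Complex.I)

lemma norm_ee (x : ℝ) : ‖ee x‖ = 1 := Complex.norm_exp_ofReal_mul_I _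

lemma card_cfs (u N : ℕ) (hN : 1 ≤ N) :
    ((cfs u N).card : ℝ) ≤ (2 * (root u + 1)) ^ root u * (N : ℝ) ^ ((root u + 1) * root u) := by
  classical
  have h1 : (cfs u N).card ≤ den u N ^ root u := by
    unfold cfs
    refine Finset.card_image_le.trans ?_
    rw [Fintype.card_piFinset]
    simp
  have hNr : (1 : ℝ) ≤ N := by exact_mod_cast hN
  have h3 : ((den u N : ℕ) : ℝ) ≤ 2 * (root u + 1) * (N : ℝ) ^ (root u + 1) := by
    unfold den
    push_cast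
    have h4 : (1 : ℝ) ≤ (N : ℝ) ^ (root u + 1) := one_le_pow₀ hNr
    have h5 : (0 : ℝ) ≤ root u := Nat.cast_nonneg _
    nlinarith
  calc ((cfs u N).card : ℝ) ≤ ((den u N : ℕ) : ℝ) ^ root u := by exact_mod_cast h1
    _ ≤ (2 * (root u + 1) * (N : ℝ) ^ (root u + 1)) ^ root u :=
        pow_le_pow_left₀ (Nat.cast_nonneg _) h3 _
    _ = _ := by rw [mul_pow, ← pow_mul]

/-- **All polynomial phases of bounded degree.** -/
theorem ae_phases (P : Set ℕ) {s : ℕ → ℝ} (hs : ∀ p, s p = 1 ∨ s p = -1) {σ' σ : ℝ} (hσ' : 1 / 2 < σ')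
    (hlt : σ' < σ) (hQ : Cv Pᶜ σ') (a : ℕ → ℝ) (ha : ∀ n, |a n| ≤ 1) (d : ℕ) :
    ∀ᵐ ω ∂cm, ∃ C : ℝ, 0 < C ∧ ∀ R : ℕ, 1 ≤ R → ∀ F : Polynomial ℝ, F.natDegree ≤ d →
      ‖∑ n ∈ Icc 1 R, (a n * mult (vl P s ω) n : ℝ) * ee (F.eval (n : ℝ))‖ ≤ C * (R : ℝ) ^ σ := by
  classical
  obtain ⟨u, hdu⟩ : ∃ u, d + 1 ≤ root u := ⟨(d + 1) ^ 16, le_root le_rfl⟩
  set T : ℕ → Finset ((ℕ → ℕ) × Bool) := fun R => cfs u R ×ˢ univ with hT
  set W : ℕ → (ℕ → ℕ) × Bool → ℕ → ℝ := fun R t n =>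
    a n * (if t.2 then (ph u R t.1 n).re else (ph u R t.1 n).im) with hW
  have hW1 : ∀ R t n, |W R t n| ≤ 1 := by
    intro R t n
    simp only [hW]
    rw [abs_mul]
    have h1 : |if t.2 then (ph u R t.1 n).re else (ph u R t.1 n).im| ≤ 1 := by
      rw [← norm_ph u R t.1 n]
      split_ifs
      · exact Complex.abs_re_le_norm _
      · exact Complex.abs_im_le_norm _
    have := mul_le_mul (ha n) h1 (abs_nonneg _) zero_le_one
    linarith
  have hcard : ∀ R : ℕ, 1 ≤ R → ((T R).card : ℝ) ≤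
      (2 * (2 * (root u + 1)) ^ root u) * (R : ℝ) ^ ((root u + 1) * root u) := by
    intro R hR
    have h1 := card_cfs u R hR
    simp only [hT, card_product, card_univ, Fintype.card_bool, Nat.cast_mul, Nat.cast_ofNat]
    nlinarith
  filter_upwards [ae_fam P hs hσ' hlt hQ T W hW1 ((root u + 1) * root u) _ (by positivity) hcard]
    with ω hω
  obtain ⟨C, hC, h⟩ := all_of_eventually (fun R => ((T R : Finset _) : Set ((ℕ → ℕ) × Bool)))
    (fun R t => |∑ n ∈ Icc 1 R, W R t n * mult (vl P s ω) n|) σ (by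
      intro R _ t _
      refine (abs_sum_le_sum_abs _ _).trans ?_
      refine (sum_le_sum (g := fun _ => (1 : ℝ)) fun n _ => ?_).trans ?_
      · rw [abs_mul, abs_mv P hs, mul_one]
        exact hW1 R t n
      · rw [sum_const, nsmul_eq_mul, mul_one, Nat.card_Icc, Nat.add_sub_cancel])
    (by
      filter_upwards [hω] with R hR t ht
      exact hR t (by simpa using ht)) (by linarith)
  refine ⟨2 * C + 2 * Real.pi, by positivity, fun R hR F hF => ?_⟩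
  have hRR : (1 : ℝ) ≤ R := by exact_mod_cast hR
  have hRs : (1 : ℝ) ≤ (R : ℝ) ^ σ := Real.one_le_rpow hRR (by linarith)
  set c := nst u R F with hc
  have hcm : c ∈ cfs u R := nst_mem u R F
  set Z : ℂ := ∑ n ∈ Icc 1 R, (a n * mult (vl P s ω) n : ℝ) * ph u R c n with hZ
  have hre : Z.re = ∑ n ∈ Icc 1 R, W R (c, true) n * mult (vl P s ω) n := by
    rw [hZ, Complex.re_sum]
    refine sum_congr rfl fun n _ => ?_
    rw [Complex.re_ofReal_mul]
    simp only [hW, if_true]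
    ring
  have him : Z.im = ∑ n ∈ Icc 1 R, W R (c, false) n * mult (vl P s ω) n := by
    rw [hZ, Complex.im_sum]
    refine sum_congr rfl fun n _ => ?_
    rw [Complex.im_ofReal_mul]
    simp only [hW, Bool.false_eq_true, if_false]
    ring
  have h1 : ‖Z‖ ≤ 2 * (C * (R : ℝ) ^ σ) := by
    refine (Complex.norm_le_abs_re_add_abs_im Z).trans ?_
    have h2 := h R hR (c, true) (by simp [hT, hcm])
    have h3 := h R hR (c, false) (by simp [hT, hcm])
    rw [hre, him]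
    linarith
  have h2 : ‖∑ n ∈ Icc 1 R, (a n * mult (vl P s ω) n : ℝ) * ee (F.eval (n : ℝ)) - Z‖ ≤ 2 * Real.pi := by
    rw [hZ, ← sum_sub_distrib]
    refine (norm_sum_le _ _).trans ?_
    have h3 : ∀ n ∈ Icc 1 R, ‖((a n * mult (vl P s ω) n : ℝ) : ℂ) * ee (F.eval (n : ℝ)) -
        ((a n * mult (vl P s ω) n : ℝ) : ℂ) * ph u R c n‖ ≤ 2 * Real.pi / R := by
      intro n hn
      rw [mem_Icc] at hn
      rw [← mul_sub, norm_mul, Complex.norm_real, Real.norm_eq_abs, abs_mul, abs_mv P hs, mul_one]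
      have h4 := approx u R F (by omega) n hn.2 hR
      have h5 : (0 : ℝ) ≤ 2 * Real.pi / R := by positivity
      calc |a n| * ‖ee (F.eval (n : ℝ)) - ph u R c n‖ ≤ 1 * (2 * Real.pi / R) :=
            mul_le_mul (ha n) h4 (norm_nonneg _) zero_le_one
        _ = _ := one_mul _
    refine (sum_le_sum h3).trans ?_
    rw [sum_const, Nat.card_Icc, Nat.add_sub_cancel, nsmul_eq_mul]
    apply le_of_eq
    field_simp
  have h3 : ∑ n ∈ Icc 1 R, ((a n * mult (vl P s ω) n : ℝ) : ℂ) * ee (F.eval (n : ℝ)) =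
      (∑ n ∈ Icc 1 R, ((a n * mult (vl P s ω) n : ℝ) : ℂ) * ee (F.eval (n : ℝ)) - Z) + Z := by ring
  rw [h3]
  refine (norm_add_le _ _).trans ?_
  have hpi := Real.pi_pos
  nlinarith

end Pool.Agent.Q163.EX
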