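import Pool.Agent.Helper112.Arith

/-! The number of tuples with a square product. -/

set_option autoImplicit false

namespace Pool.Agent.Q163.EX

open Finset

lemma fin_prod_le {k z : ℕ} {t : Fin (2 * k) → ℕ} (h : ∀ i, t i ∈ Icc 1 z) :
    1 ≤ ∏ i, t i ∧ ∏ i, t i ≤ z ^ (2 * k) := by
  constructor
  · exact Nat.one_le_iff_ne_zero.2 (prod_ne_zero_iff.2 fun i _ => by
      have := (mem_Icc.1 (h i)).1
      omega)
  · calc ∏ i, t i ≤ ∏ _i : Fin (2 * k), z := prod_le_prod' fun i _ => (mem_Icc.1 (h i)).2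
      _ = z ^ (2 * k) := by simp

theorem tuples (k : ℕ) (hk : 1 ≤ k) (δ : ℝ) (hδ : 0 < δ) : ∃ C : ℝ, 1 ≤ C ∧ ∀ z : ℕ,
    (((Fintype.piFinset fun _ : Fin (2 * k) => Icc 1 z).filter
      fun t => IsSquare (∏ i, t i)).card : ℝ) ≤ C * (z : ℝ) ^ ((k : ℝ) + δ) := by
  classical
  have hkR : (1 : ℝ) ≤ k := by exact_mod_cast hk
  set κ : ℝ := δ / (4 * k ^ 2) with hκ
  have hκ0 : 0 < κ := by positivity
  obtain ⟨C, hC, hC2⟩ := Pool.Agent.Helper112.divisor_bound κ hκ0
  refine ⟨max 1 (C ^ (2 * k)), le_max_left _ _, fun z => ?_⟩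
  rcases Nat.eq_zero_or_pos z with rfl | hz
  · have h1 : (Fintype.piFinset fun _ : Fin (2 * k) => Icc 1 0).filter
        (fun t => IsSquare (∏ i, t i)) = ∅ := by
      rw [filter_eq_empty_iff]
      intro t ht
      rw [Fintype.mem_piFinset] at ht
      have := ht ⟨0, by omega⟩
      simp at this
    rw [h1]
    simp only [card_empty, Nat.cast_zero]
    positivity
  have hzR : (1 : ℝ) ≤ z := by exact_mod_cast hz
  have h1 : (Fintype.piFinset fun _ : Fin (2 * k) => Icc 1 z).filter (fun t => IsSquare (∏ i, t i)) ⊆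
      (Icc 1 (z ^ k)).biUnion fun r => Fintype.piFinset fun _ : Fin (2 * k) => (r ^ 2).divisors := by
    intro t ht
    rw [mem_filter, Fintype.mem_piFinset] at ht
    obtain ⟨ht1, r, hr⟩ := ht
    obtain ⟨h2, h3⟩ := fin_prod_le ht1
    rw [mem_biUnion]
    have hr0 : r ≠ 0 := by
      rintro rfl
      omega
    refine ⟨r, ?_, ?_⟩
    · rw [mem_Icc]
      refine ⟨by omega, ?_⟩
      have h4 : r ^ 2 ≤ (z ^ k) ^ 2 := by
        rw [← pow_mul, mul_comm k 2, sq, ← hr]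
        exact h3
      exact (Nat.pow_le_pow_iff_left (by norm_num)).1 h4
    · rw [Fintype.mem_piFinset]
      intro i
      rw [Nat.mem_divisors]
      refine ⟨?_, by positivity⟩
      rw [sq, ← hr]
      exact dvd_prod_of_mem _ (mem_univ i)
  have h2 : ∀ r ∈ Icc 1 (z ^ k), ((Fintype.piFinset fun _ : Fin (2 * k) =>
      (r ^ 2).divisors).card : ℝ) ≤ C ^ (2 * k) * (z : ℝ) ^ δ := by
    intro r hr
    rw [mem_Icc] at hr
    rw [Fintype.card_piFinset]
    simp only [prod_const, card_univ, Fintype.card_fin, Nat.cast_pow]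
    have h3 := hC2 (r ^ 2) (Nat.one_le_pow _ _ (by omega))
    have h4 : ((r ^ 2 : ℕ) : ℝ) ^ κ ≤ (z : ℝ) ^ (2 * k * κ) := by
      have h5 : ((r ^ 2 : ℕ) : ℝ) ≤ (z : ℝ) ^ (2 * (k : ℝ)) := by
        have h6 : r ^ 2 ≤ z ^ (2 * k) := by
          rw [mul_comm 2 k, pow_mul]
          exact Nat.pow_le_pow_left hr.2 2
        have h7 : ((r ^ 2 : ℕ) : ℝ) ≤ ((z ^ (2 * k) : ℕ) : ℝ) := by exact_mod_cast h6
        refine h7.trans (le_of_eq ?_)
        push_cast
        rw [← Real.rpow_natCast]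
        push_cast
        rfl
      calc ((r ^ 2 : ℕ) : ℝ) ^ κ ≤ ((z : ℝ) ^ (2 * (k : ℝ))) ^ κ :=
            Real.rpow_le_rpow (by positivity) h5 hκ0.le
        _ = (z : ℝ) ^ (2 * k * κ) := by rw [← Real.rpow_mul (by positivity)]
    calc (((r ^ 2).divisors.card : ℕ) : ℝ) ^ (2 * k) ≤ (C * (z : ℝ) ^ (2 * k * κ)) ^ (2 * k) := by
          refine pow_le_pow_left₀ (by positivity) (h3.trans ?_) _
          exact mul_le_mul_of_nonneg_left h4 hC.le
      _ = C ^ (2 * k) * (z : ℝ) ^ δ := by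
          rw [mul_pow, ← Real.rpow_natCast ((z : ℝ) ^ (2 * k * κ)), ← Real.rpow_mul (by positivity)]
          congr 2
          push_cast
          rw [hκ]
          field_simp
          ring
  calc (((Fintype.piFinset fun _ : Fin (2 * k) => Icc 1 z).filter
      fun t => IsSquare (∏ i, t i)).card : ℝ)
      ≤ (((Icc 1 (z ^ k)).biUnion fun r => Fintype.piFinset fun _ : Fin (2 * k) =>
        (r ^ 2).divisors).card : ℝ) := by exact_mod_cast card_le_card h1
    _ ≤ ∑ r ∈ Icc 1 (z ^ k), ((Fintype.piFinset fun _ : Fin (2 * k) => (r ^ 2).divisors).card : ℝ) := by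
        exact_mod_cast card_biUnion_le
    _ ≤ ∑ _r ∈ Icc 1 (z ^ k), C ^ (2 * k) * (z : ℝ) ^ δ := sum_le_sum h2
    _ = C ^ (2 * k) * (z : ℝ) ^ ((k : ℝ) + δ) := by
        rw [sum_const, Nat.card_Icc, Nat.add_sub_cancel, nsmul_eq_mul, Real.rpow_add (by linarith),
          Real.rpow_natCast]
        push_cast
        ring
    _ ≤ max 1 (C ^ (2 * k)) * (z : ℝ) ^ ((k : ℝ) + δ) :=
        mul_le_mul_of_nonneg_right (le_max_right _ _) (by positivity)

end Pool.Agent.Q163.EX
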