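import Pool.Agent.Q163.EX.Lan
import Pool.Agent.Q163.BC.Flip
import Pool.Agent.Q163.GC.Sqf

/-! Growth exponents. -/

set_option autoImplicit false

namespace Pool.Agent.Q163.EX

open Finset MeasureTheory Filter Topology Pool.Agent.Q163.RP Pool.Agent.Q163.RX Pool.Agent.Q163.WM
  Pool.Agent.Q163.BC

/-- an almost sure property holds for all finite modifications -/
theorem ae_fin {P : (ℕ → Bool) → Prop} (h : ∀ᵐ ω ∂cm, P ω) :
    ∀ᵐ ω ∂cm, ∀ ω' : ℕ → Bool, {p | ω' p ≠ ω p}.Finite → P ω' := by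
  have h1 : ∀ᵐ ω ∂cm, ∀ S : Finset ℕ, P (flS (S : Set ℕ) ω) := by
    rw [ae_all_iff]
    intro S
    exact (mp_flS (S : Set ℕ)).quasiMeasurePreserving.ae h
  filter_upwards [h1] with ω hω ω' hf
  have h2 := hω hf.toFinset
  have h3 : flS ((hf.toFinset : Finset ℕ) : Set ℕ) ω = ω' := by
    funext p
    unfold flS
    rw [Set.Finite.coe_toFinset]
    by_cases hp : ω' p = ω p
    · rw [if_neg (by simp [hp])]
      exact hp.symm
    · rw [if_pos (by simpa using hp)]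
      cases hω : ω p <;> cases hω' : ω' p <;> simp_all
  rwa [h3] at h2

lemma int_cos (k : ℤ) : ∫ x in (0 : ℝ)..1, Real.cos (2 * Real.pi * (k * x)) = if k = 0 then 1 else 0 := by
  split_ifs with h
  · subst h
    simp
  · have hk : (2 * Real.pi * k : ℝ) ≠ 0 := by
      have : (k : ℝ) ≠ 0 := by exact_mod_cast h
      have := Real.pi_pos
      positivity
    have h1 : (fun x : ℝ => Real.cos (2 * Real.pi * (k * x))) =
        fun x : ℝ => Real.cos ((2 * Real.pi * k) * x) := by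
      funext x
      congr 1
      ring
    rw [h1, intervalIntegral.integral_comp_mul_left (fun x => Real.cos x) hk, integral_cos]
    have h2 : Real.sin (2 * Real.pi * k * 1) = 0 := by
      have := Real.sin_int_mul_pi (2 * k)
      rw [← this]
      congr 1
      push_cast
      ring
    rw [h2]
    simp

lemma normsq_sum (f : ℕ → ℝ) (R : ℕ) (x : ℝ) : ‖∑ n ∈ Icc 1 R, (f n : ℂ) * ee (n * x)‖ ^ 2 =
    ∑ n ∈ Icc 1 R, ∑ m ∈ Icc 1 R, f n * f m * Real.cos (2 * Real.pi * (((n : ℤ) - (m : ℤ) : ℤ) * x)) := by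
  have h1 : ∑ n ∈ Icc 1 R, (f n : ℂ) * ee (n * x) =
      ((∑ n ∈ Icc 1 R, f n * Real.cos (2 * Real.pi * (n * x)) : ℝ) : ℂ) +
      ((∑ n ∈ Icc 1 R, f n * Real.sin (2 * Real.pi * (n * x)) : ℝ) : ℂ) * Complex.I := by
    push_cast
    rw [sum_mul, ← sum_add_distrib]
    refine sum_congr rfl fun n _ => ?_
    unfold ee
    rw [Complex.exp_mul_I]
    push_cast
    ring
  rw [h1, ← Complex.normSq_eq_norm_sq, Complex.normSq_add_mul_I, sq, sq, sum_mul_sum, sum_mul_sum,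
    ← sum_add_distrib]
  refine sum_congr rfl fun n _ => ?_
  rw [← sum_add_distrib]
  refine sum_congr rfl fun m _ => ?_
  have h2 : 2 * Real.pi * ((((n : ℤ) - (m : ℤ) : ℤ) : ℝ) * x) =
      2 * Real.pi * (n * x) - 2 * Real.pi * (m * x) := by
    push_cast
    ring
  rw [h2, Real.cos_sub]
  ring

/-- Parseval -/
theorem parseval (f : ℕ → ℝ) (R : ℕ) :
    ∫ x in (0 : ℝ)..1, ‖∑ n ∈ Icc 1 R, (f n : ℂ) * ee (n * x)‖ ^ 2 = ∑ n ∈ Icc 1 R, f n ^ 2 := by
  simp_rw [normsq_sum]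
  have hc : ∀ n m : ℕ, IntervalIntegrable
      (fun x : ℝ => f n * f m * Real.cos (2 * Real.pi * (((n : ℤ) - (m : ℤ) : ℤ) * x))) volume 0 1 := by
    intro n m
    exact (Continuous.intervalIntegrable (by fun_prop) _ _)
  have hc2 : ∀ n ∈ Icc 1 R, IntervalIntegrable (fun x : ℝ => ∑ m ∈ Icc 1 R,
      f n * f m * Real.cos (2 * Real.pi * (((n : ℤ) - (m : ℤ) : ℤ) * x))) volume 0 1 := by
    intro n _
    exact (Continuous.intervalIntegrable (by fun_prop) _ _)
  rw [intervalIntegral.integral_finsetSum hc2]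
  refine sum_congr rfl fun n hn => ?_
  rw [intervalIntegral.integral_finsetSum fun m _ => hc n m, sum_eq_single n]
  · rw [intervalIntegral.integral_const_mul, int_cos, if_pos (by ring)]
    ring
  · intro m _ hne
    rw [intervalIntegral.integral_const_mul, int_cos, if_neg (by
      intro h
      apply hne
      omega), mul_zero]
  · intro h
    exact absurd hn h

/-- the lower bound `1/2` -/
theorem half_le (f : ℕ → ℝ) (c : ℝ) (hc : 0 < c) (R0 : ℕ)
    (hf : ∀ R : ℕ, R0 ≤ R → c * R ≤ ∑ n ∈ Icc 1 R, f n ^ 2) (a C : ℝ)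
    (h : ∀ R : ℕ, 1 ≤ R → ∀ x : ℝ, ‖∑ n ∈ Icc 1 R, (f n : ℂ) * ee (n * x)‖ ≤ C * (R : ℝ) ^ a) :
    1 / 2 ≤ a := by
  by_contra hlt
  push Not at hlt
  have h1 : ∀ R : ℕ, max 1 R0 ≤ R → c * R ≤ C ^ 2 * (R : ℝ) ^ (2 * a) := by
    intro R hR
    have hR1 : 1 ≤ R := (le_max_left _ _).trans hR
    have hRp : (0 : ℝ) < R := by exact_mod_cast hR1
    refine (hf R ((le_max_right _ _).trans hR)).trans ?_
    rw [← parseval]
    have h2 : ∀ x ∈ Set.Icc (0 : ℝ) 1, ‖∑ n ∈ Icc 1 R, (f n : ℂ) * ee (n * x)‖ ^ 2 ≤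
        C ^ 2 * (R : ℝ) ^ (2 * a) := by
      intro x _
      calc ‖∑ n ∈ Icc 1 R, (f n : ℂ) * ee (n * x)‖ ^ 2 ≤ (C * (R : ℝ) ^ a) ^ 2 :=
            pow_le_pow_left₀ (norm_nonneg _) (h R hR1 x) 2
        _ = C ^ 2 * (R : ℝ) ^ (2 * a) := by
            rw [mul_pow, ← Real.rpow_natCast ((R : ℝ) ^ a), ← Real.rpow_mul (by positivity)]
            push_cast
            rw [mul_comm a]
    have hcont : Continuous fun x : ℝ => ‖∑ n ∈ Icc 1 R, (f n : ℂ) * ee (n * x)‖ ^ 2 := by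
      unfold ee
      fun_prop
    have h3 := intervalIntegral.integral_mono_on (μ := volume) zero_le_one
      (hcont.intervalIntegrable _ _) (intervalIntegrable_const (c := C ^ 2 * (R : ℝ) ^ (2 * a))) h2
    simpa using h3
  have h2 : Tendsto (fun R : ℕ => (R : ℝ) ^ (1 - 2 * a)) atTop atTop :=
    (tendsto_rpow_atTop (by linarith)).comp tendsto_natCast_atTop_atTop
  obtain ⟨R, hR1, hR2⟩ := ((h2.eventually_gt_atTop (C ^ 2 / c)).and
    (eventually_ge_atTop (max 1 R0))).exists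
  have h3 := h1 R hR2
  have hRp : (0 : ℝ) < R := by exact_mod_cast (le_max_left 1 R0).trans hR2
  have h4 : (R : ℝ) ^ (1 - 2 * a) = R / (R : ℝ) ^ (2 * a) := by
    rw [Real.rpow_sub hRp, Real.rpow_one]
  rw [h4, div_lt_div_iff₀ hc (by positivity)] at hR1
  linarith

end Pool.Agent.Q163.EX
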