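import Pool.Agent.Q163.EX.AE
import Pool.Agent.H353R2.R1

/-! A lower bound for the growth exponent from Landau's theorem. -/

set_option autoImplicit false

namespace Pool.Agent.Q163.EX

open Finset MeasureTheory Filter Topology Pool.Agent.Q163.RP Pool.Agent.Q163.RX Pool.Agent.Q163.WM

lemma bigO_nat (a : ℕ → ℂ) {β C : ℝ} (h : ∀ R : ℕ, 1 ≤ R → ‖∑ n ∈ Icc 1 R, a n‖ ≤ C * (R : ℝ) ^ β) :
    (fun n : ℕ => ∑ k ∈ Icc 1 n, a k) =O[atTop] fun n => (n : ℝ) ^ β := by
  refine Asymptotics.IsBigO.of_bound C ?_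
  filter_upwards [eventually_ge_atTop 1] with n hn
  rw [Real.norm_eq_abs, abs_of_nonneg (by positivity)]
  exact h n hn

/-- the analytic continuation given by a bound for the sums -/
theorem cont (a : ℕ → ℂ) {β C : ℝ} (hβ : 0 ≤ β) (hC : 0 ≤ C)
    (h : ∀ R : ℕ, 1 ≤ R → ‖∑ n ∈ Icc 1 R, a n‖ ≤ C * (R : ℝ) ^ β) :
    ∃ G : ℂ → ℂ, DifferentiableOn ℂ G {s : ℂ | β < s.re} ∧
      ∀ s : ℂ, β < s.re → LSeriesSummable a s → G s = LSeries a s := by
  set g : ℝ → ℂ := fun t => ∑ k ∈ Icc 1 ⌊t⌋₊, a k with hg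
  have hloc : LocallyIntegrableOn g (Set.Ioi 0) := by
    have h1 := locallyIntegrableOn_mul_sum_Icc (m := 1) a (le_refl (0 : ℝ)) (g := fun _ => (1 : ℂ))
      (locallyIntegrableOn_const 1)
    simp only [one_mul] at h1
    exact h1.mono_set Set.Ioi_subset_Ici_self
  have htop : g =O[atTop] (fun t : ℝ => t ^ (-(-β))) := by
    rw [neg_neg]
    refine Asymptotics.IsBigO.of_bound C ?_
    filter_upwards [eventually_ge_atTop 1] with t ht
    rw [Real.norm_eq_abs, abs_of_nonneg (by positivity)]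
    have h1 : 1 ≤ ⌊t⌋₊ := Nat.le_floor (by exact_mod_cast ht)
    refine (h _ h1).trans (mul_le_mul_of_nonneg_left ?_ hC)
    exact Real.rpow_le_rpow (by positivity) (Nat.floor_le (by linarith)) hβ
  have hbot : ∀ b : ℝ, g =O[𝓝[>] 0] (fun t : ℝ => t ^ (-b)) := by
    intro b
    refine Asymptotics.IsBigO.of_bound 1 ?_
    have h1 : Set.Ioo (0 : ℝ) 1 ∈ 𝓝[>] (0 : ℝ) := Ioo_mem_nhdsGT one_pos
    filter_upwards [h1] with t ht
    have h2 : ⌊t⌋₊ = 0 := Nat.floor_eq_zero.2 ht.2
    simp only [hg, h2]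
    simp
  refine ⟨fun s => s * mellin g (-s), ?_, ?_⟩
  · intro s hs
    refine DifferentiableAt.differentiableWithinAt ?_
    refine differentiableAt_id.mul ?_
    have h1 : DifferentiableAt ℂ (mellin g) (-s) :=
      mellin_differentiableAt_of_isBigO_rpow hloc htop (by
        rw [Complex.neg_re]
        exact neg_lt_neg hs) (hbot ((-s).re - 1)) (by linarith)
    exact h1.comp s differentiableAt_id.neg
  · intro s hs hsum
    rw [LSeries_eq_mul_integral a hβ hs hsum (bigO_nat a h)]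
    show s * mellin g (-s) = _
    congr 1
    unfold mellin
    have h1 : ∀ t ∈ Set.Ioc (0 : ℝ) 1, t ≠ 1 → (t : ℂ) ^ (-s - 1) • g t = 0 := by
      intro t ht ht1
      have h2 : ⌊t⌋₊ = 0 := Nat.floor_eq_zero.2 (lt_of_le_of_ne ht.2 ht1)
      simp only [hg, h2]
      simp
    have h2 : ∫ t in Set.Ioi (0 : ℝ), (t : ℂ) ^ (-s - 1) • g t =
        ∫ t in Set.Ioi (1 : ℝ), (t : ℂ) ^ (-s - 1) • g t := by
      apply setIntegral_eq_of_subset_of_ae_sdiff_eq_zero measurableSet_Ioi.nullMeasurableSet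
        (Set.Ioi_subset_Ioi zero_le_one)
      have h3 : ∀ᵐ t : ℝ, t ≠ 1 := by
        simp [ae_iff]
      filter_upwards [h3] with t ht htm
      exact h1 t ⟨htm.1, not_lt.1 htm.2⟩ ht
    rw [h2]
    refine integral_congr_ae (Eventually.of_forall fun t => ?_)
    simp only [smul_eq_mul, hg]
    rw [mul_comm, neg_add']

open Classical in
/-- the inverse of the random part -/
noncomputable def ps (P : Set ℕ) (ω : ℕ → Bool) (n : ℕ) : ℝ :=
  (if ∀ p ∈ n.primeFactors, p ∈ P then mo n else 0) * mult (vl P (fun _ => 1) ω) n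

open Classical in
/-- the indicator function of the integers without prime factors in `P` -/
noncomputable def iq (P : Set ℕ) (n : ℕ) : ℝ := if n ≠ 0 ∧ ∀ p ∈ n.primeFactors, p ∉ P then 1 else 0

lemma pp_self {P : Set ℕ} {n : ℕ} (hn : n ≠ 0) (h : ∀ p ∈ n.primeFactors, p ∈ P) : pp P n = n := by
  classical
  unfold pp
  conv_rhs => rw [← Nat.prod_factorization_pow_eq_self hn]
  rw [Finsupp.prod, Nat.support_factorization]
  exact prod_congr rfl fun p hp => if_pos (h p hp)

lemma pp_primes {P : Set ℕ} {n p : ℕ} (hp : p ∈ (pp P n).primeFactors) : p ∈ P := by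
  classical
  rw [Nat.mem_primeFactors] at hp
  obtain ⟨hpp, hpd, _⟩ := hp
  unfold pp at hpd
  rw [Prime.dvd_finsetProd_iff hpp.prime] at hpd
  obtain ⟨r, hr, hpr⟩ := hpd
  by_cases hrP : r ∈ P
  · rw [if_pos hrP] at hpr
    have h2 := (Nat.prime_dvd_prime_iff_eq hpp (Nat.prime_of_mem_primeFactors hr)).1
      (hpp.dvd_of_dvd_pow hpr)
    rwa [h2]
  · rw [if_neg hrP] at hpr
    exact absurd (Nat.dvd_one.1 hpr) hpp.one_lt.ne'

lemma pp_dvd (P : Set ℕ) {n : ℕ} (hn : n ≠ 0) : pp P n ∣ n :=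
  ⟨pp Pᶜ n, by rw [mul_comm, pp_compl P hn]⟩

open Classical in
lemma sum_mo (P : Set ℕ) {n : ℕ} (hn : n ≠ 0) :
    ∑ e ∈ n.divisors, (if ∀ p ∈ e.primeFactors, p ∈ P then mo e else 0) =
      if pp P n = 1 then 1 else 0 := by
  rw [← sum_filter]
  have h1 : n.divisors.filter (fun e => ∀ p ∈ e.primeFactors, p ∈ P) = (pp P n).divisors := by
    ext e
    rw [mem_filter, Nat.mem_divisors, Nat.mem_divisors]
    constructor
    · rintro ⟨⟨⟨f, hf⟩, _⟩, he⟩
      have he0 : e ≠ 0 := by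
        rintro rfl
        rw [zero_mul] at hf
        exact hn hf
      have hf0 : f ≠ 0 := by
        rintro rfl
        rw [mul_zero] at hf
        exact hn hf
      refine ⟨?_, by have := pp_pos P n; omega⟩
      rw [hf, pp_mul P he0 hf0, pp_self he0 he]
      exact dvd_mul_right _ _
    · rintro ⟨h, h0⟩
      refine ⟨⟨h.trans (pp_dvd P hn), hn⟩, fun p hp => ?_⟩
      exact pp_primes (Nat.primeFactors_mono h h0 hp)
  rw [h1]
  have h2 := congrArg (fun f : ArithmeticFunction ℝ => f (pp P n))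
    (ArithmeticFunction.coe_moebius_mul_coe_zeta (R := ℝ))
  simp only [ArithmeticFunction.coe_mul_zeta_apply, ArithmeticFunction.one_apply] at h2
  rw [← h2]
  rfl

lemma conv_eq (P : Set ℕ) (ω : ℕ → Bool) (n : ℕ) :
    LSeries.convolution (fun n => ((mult (vl P (fun _ => 1) ω) n : ℝ) : ℂ))
      (fun n => ((ps P ω n : ℝ) : ℂ)) n = ((iq P n : ℝ) : ℂ) := by
  classical
  rw [LSeries.convolution_def]
  by_cases hn : n = 0
  · subst hn
    simp [iq]
  have h1 : ∀ x ∈ n.divisorsAntidiagonal, ((mult (vl P (fun _ => 1) ω) x.1 : ℝ) : ℂ) *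
      ((ps P ω x.2 : ℝ) : ℂ) = ((mult (vl P (fun _ => 1) ω) n *
        (if ∀ p ∈ x.2.primeFactors, p ∈ P then mo x.2 else 0) : ℝ) : ℂ) := by
    intro x hx
    rw [Nat.mem_divisorsAntidiagonal] at hx
    have h2 : x.1 ≠ 0 := by
      rintro h
      rw [h, zero_mul] at hx
      exact hn hx.1.symm
    have h3 : x.2 ≠ 0 := by
      rintro h
      rw [h, mul_zero] at hx
      exact hn hx.1.symm
    unfold ps
    rw [← hx.1, mult_mul _ h2 h3]
    push_cast
    ring
  refine (sum_congr rfl h1).trans ?_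
  rw [← Complex.ofReal_sum, ← mul_sum,
    Nat.sum_divisorsAntidiagonal' (f := fun _ e => if ∀ p ∈ e.primeFactors, p ∈ P then mo e else 0),
    sum_mo P hn]
  congr 1
  unfold iq
  by_cases h : pp P n = 1
  · have h2 : ∀ p ∈ n.primeFactors, p ∉ P := by
      intro p hp hpP
      have h3 : p ∣ pp P n := by
        unfold pp
        refine dvd_trans ?_ (dvd_prod_of_mem _ hp)
        rw [if_pos hpP]
        refine dvd_pow_self p ?_
        rw [← Nat.support_factorization, Finsupp.mem_support_iff] at hp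
        exact hp
      rw [h] at h3
      exact (Nat.prime_of_mem_primeFactors hp).one_lt.ne' (Nat.dvd_one.1 h3)
    rw [if_pos h, if_pos ⟨hn, h2⟩, mul_one]
    unfold mult
    refine prod_eq_one fun p hp => ?_
    unfold vl
    rw [if_neg (h2 p hp), one_pow]
  · rw [if_neg h, if_neg, mul_zero]
    rintro ⟨_, h2⟩
    apply h
    unfold pp
    exact prod_eq_one fun p hp => if_neg (h2 p hp)

lemma ones (p : ℕ) : (fun _ : ℕ => (1 : ℝ)) p = 1 ∨ (fun _ : ℕ => (1 : ℝ)) p = -1 := Or.inl rfl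

lemma Cv_univ (σ : ℝ) : Cv (Set.univ : Set ℕ)ᶜ σ := by
  unfold Cv cq
  simp only [Set.compl_univ, Set.mem_empty_iff_false, if_false, ite_self]
  exact summable_zero

/-- the sums of the inverse of the random part -/
theorem ps_bound (P : Set ℕ) (σ : ℝ) (hσ : 1 / 2 < σ) : ∀ᵐ ω ∂cm, ∃ C : ℝ, 0 < C ∧
    ∀ R : ℕ, 1 ≤ R → ‖∑ n ∈ Icc 1 R, ((ps P ω n : ℝ) : ℂ)‖ ≤ C * (R : ℝ) ^ σ := by
  classical
  have h1 := ae_phases Set.univ ones (σ' := (1 / 2 + σ) / 2) (σ := σ) (by linarith) (by linarith)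
    (Cv_univ _) (fun n => if ∀ p ∈ n.primeFactors, p ∈ P then mo n else 0) (by
      intro n
      split_ifs
      · unfold mo
        have := ArithmeticFunction.abs_moebius_le_one (n := n)
        exact_mod_cast this
      · simp) 0
  filter_upwards [h1] with ω hω
  obtain ⟨C, hC, h⟩ := hω
  refine ⟨C, hC, fun R hR => ?_⟩
  have h2 := h R hR 0 (by simp)
  refine le_trans (le_of_eq ?_) h2
  congr 1
  refine sum_congr rfl fun n _ => ?_
  have h3 : ee (Polynomial.eval (n : ℝ) 0) = 1 := by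
    unfold ee
    simp
  rw [h3, mul_one]
  congr 1
  unfold ps
  by_cases h4 : ∀ p ∈ n.primeFactors, p ∈ P
  · rw [if_pos h4]
    congr 1
    unfold mult
    refine prod_congr rfl fun p hp => ?_
    unfold vl
    rw [if_pos (h4 p hp), if_pos (Set.mem_univ p)]
  · rw [if_neg h4, zero_mul, zero_mul]

/-- **The lower bound.** -/
theorem lower (P : Set ℕ) (β : ℝ) (hβ : 1 / 2 < β) (hβ1 : β < 1) : ∀ᵐ ω ∂cm, ∀ C : ℝ,
    (∀ R : ℕ, 1 ≤ R → |∑ n ∈ Icc 1 R, mult (vl P (fun _ => 1) ω) n| ≤ C * (R : ℝ) ^ β) →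
    ∀ τ : ℝ, β < τ → Cv Pᶜ τ := by
  classical
  filter_upwards [ps_bound P β hβ] with ω hω C hC τ hτ
  obtain ⟨C', hC', hps⟩ := hω
  have hC0 : 0 ≤ C := by
    have := (abs_nonneg _).trans (hC 1 le_rfl)
    simpa using this
  obtain ⟨G1, hG1, hG1e⟩ := cont (fun n => ((mult (vl P (fun _ => 1) ω) n : ℝ) : ℂ)) (by linarith) hC0
    (β := β) (fun R hR => by
      rw [← Complex.ofReal_sum, Complex.norm_real, Real.norm_eq_abs]
      exact hC R hR)
  obtain ⟨G2, hG2, hG2e⟩ := cont (fun n => ((ps P ω n : ℝ) : ℂ)) (by linarith) hC'.le hps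
  have hs1 : ∀ s : ℂ, 1 < s.re → LSeriesSummable (fun n => ((mult (vl P (fun _ => 1) ω) n : ℝ) : ℂ)) s := by
    intro s hs
    refine LSeriesSummable_of_bounded_of_one_lt_re (m := 1) (fun n _ => ?_) hs
    rw [Complex.norm_real, Real.norm_eq_abs, abs_mv P ones]
  have hs2 : ∀ s : ℂ, 1 < s.re → LSeriesSummable (fun n => ((ps P ω n : ℝ) : ℂ)) s := by
    intro s hs
    refine LSeriesSummable_of_bounded_of_one_lt_re (m := 1) (fun n _ => ?_) hs
    rw [Complex.norm_real, Real.norm_eq_abs]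
    unfold ps
    rw [abs_mul, abs_mv P ones, mul_one]
    split_ifs
    · unfold mo
      have := ArithmeticFunction.abs_moebius_le_one (n := n)
      exact_mod_cast this
    · simp
  have hconv : LSeries.convolution (fun n => ((mult (vl P (fun _ => 1) ω) n : ℝ) : ℂ))
      (fun n => ((ps P ω n : ℝ) : ℂ)) = fun n => ((iq P n : ℝ) : ℂ) := funext fun n => conv_eq P ω n
  have h1 := H353.landau_half (iq P) (fun n => by unfold iq; split_ifs <;> norm_num)
    (fun s => G1 s * G2 s) β hβ1 (hG1.mul hG2)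
    (fun s hs => by
      have := (hs1 s hs).convolution (hs2 s hs)
      rwa [hconv] at this)
    (fun s hs => by
      show G1 s * G2 s = _
      rw [hG1e s (by linarith) (hs1 s hs), hG2e s (by linarith) (hs2 s hs),
        ← LSeries_convolution' (hs1 s hs) (hs2 s hs), hconv]) τ hτ
  have h2 : Summable fun n : ℕ => ‖LSeries.term (fun n => ((iq P n : ℝ) : ℂ)) (τ : ℂ) n‖ := h1.norm
  unfold Cv
  refine Summable.of_nonneg_of_le (fun p => ?_) (fun p => ?_) h2
  · split_ifs
    · exact cq_nonneg _ _ _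
    · exact le_rfl
  · by_cases hp : p.Prime
    · rw [if_pos hp]
      unfold cq
      by_cases hpP : p ∈ P
      · rw [if_neg (by simpa using hpP)]
        exact norm_nonneg _
      · rw [if_pos (by simpa using hpP), LSeries.term_of_ne_zero hp.ne_zero]
        have h3 : iq P p = 1 := by
          unfold iq
          rw [if_pos]
          refine ⟨hp.ne_zero, fun q hq => ?_⟩
          rw [hp.primeFactors, mem_singleton] at hq
          rwa [hq]
        rw [h3, norm_div, Complex.ofReal_one, norm_one,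
          Complex.norm_natCast_cpow_of_pos hp.pos, Complex.ofReal_re, Real.rpow_neg (by positivity),
          one_div]
    · rw [if_neg hp]
      exact norm_nonneg _

end Pool.Agent.Q163.EX
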