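import Pool.Agent.Q163.WM.Sm
import Pool.Agent.Q163.EX.Cnt

/-! The part of an integer composed of the primes of a set; moments. -/

set_option autoImplicit false

namespace Pool.Agent.Q163.EX

open Finset MeasureTheory Pool.Agent.Q163.RP Pool.Agent.Q163.RX Pool.Agent.Q163.WM

open Classical in
/-- the part of `n` composed of the primes of `P` -/
noncomputable def pp (P : Set ℕ) (n : ℕ) : ℕ := ∏ p ∈ n.primeFactors, if p ∈ P then p ^ n.factorization p else 1

lemma pp_eq (P : Set ℕ) {n : ℕ} {S : Finset ℕ} (hS : n.primeFactors ⊆ S) :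
    pp P n = ∏ p ∈ S, (open Classical in if p ∈ P then p ^ n.factorization p else 1) := by
  classical
  refine Finset.prod_subset hS fun p _ hp => ?_
  rw [← Nat.support_factorization, Finsupp.notMem_support_iff] at hp
  rw [hp, pow_zero, ite_self]

lemma pp_mul (P : Set ℕ) {m n : ℕ} (hm : m ≠ 0) (hn : n ≠ 0) : pp P (m * n) = pp P m * pp P n := by
  classical
  rw [pp_eq P (S := m.primeFactors ∪ n.primeFactors) (by rw [Nat.primeFactors_mul hm hn]),
    pp_eq P (n := m) (S := m.primeFactors ∪ n.primeFactors) Finset.subset_union_left,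
    pp_eq P (n := n) (S := m.primeFactors ∪ n.primeFactors) Finset.subset_union_right,
    ← Finset.prod_mul_distrib]
  refine Finset.prod_congr rfl fun p _ => ?_
  rw [Nat.factorization_mul hm hn, Finsupp.add_apply]
  split_ifs
  · rw [pow_add]
  · rfl

lemma pp_one (P : Set ℕ) : pp P 1 = 1 := by
  simp [pp]

lemma pp_prod (P : Set ℕ) {ι : Type*} (s : Finset ι) (f : ι → ℕ) (hf : ∀ i ∈ s, f i ≠ 0) :
    pp P (∏ i ∈ s, f i) = ∏ i ∈ s, pp P (f i) := by
  classical
  induction s using Finset.induction_on with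
  | empty => simp [pp_one]
  | insert i s hi ih =>
    rw [Finset.prod_insert hi, Finset.prod_insert hi, pp_mul P (hf i (Finset.mem_insert_self _ _))
      (Finset.prod_ne_zero_iff.2 fun j hj => hf j (Finset.mem_insert_of_mem hj)),
      ih fun j hj => hf j (Finset.mem_insert_of_mem hj)]

lemma pp_compl (P : Set ℕ) {n : ℕ} (hn : n ≠ 0) : pp Pᶜ n * pp P n = n := by
  classical
  unfold pp
  rw [← Finset.prod_mul_distrib]
  conv_rhs => rw [← Nat.prod_factorization_pow_eq_self hn]
  rw [Finsupp.prod, Nat.support_factorization]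
  refine Finset.prod_congr rfl fun p _ => ?_
  by_cases hp : p ∈ P
  · have h : ¬ p ∈ Pᶜ := fun h => h hp
    rw [if_pos hp, if_neg h, one_mul]
  · have h : p ∈ Pᶜ := hp
    rw [if_neg hp, if_pos h, mul_one]

lemma pp_pos (P : Set ℕ) (n : ℕ) : 1 ≤ pp P n := by
  unfold pp
  refine Nat.one_le_iff_ne_zero.2 (prod_ne_zero_iff.2 fun p hp => ?_)
  split_ifs
  · exact pow_ne_zero _ (Nat.prime_of_mem_primeFactors hp).ne_zero
  · exact one_ne_zero

lemma pp_sq (P : Set ℕ) {n : ℕ} (h : ∀ p ∈ P, Even (n.factorization p)) : IsSquare (pp P n) := by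
  classical
  refine ⟨∏ p ∈ n.primeFactors, if p ∈ P then p ^ (n.factorization p / 2) else 1, ?_⟩
  rw [← Finset.prod_mul_distrib]
  unfold pp
  refine Finset.prod_congr rfl fun p _ => ?_
  by_cases hp : p ∈ P
  · rw [if_pos hp, if_pos hp, ← pow_add]
    congr 1
    obtain ⟨r, hr⟩ := h p hp
    omega
  · rw [if_neg hp, if_neg hp, mul_one]

lemma mult_vl_fl (P : Set ℕ) (s : ℕ → ℝ) {p : ℕ} (hp : p ∈ P) (ω : ℕ → Bool) (n : ℕ) :
    mult (vl P s (fl p ω)) n = (-1) ^ (n.factorization p) * mult (vl P s ω) n := by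
  rw [mult_eq _ (S := insert p n.primeFactors) (Finset.subset_insert _ _),
    mult_eq (vl P s ω) (S := insert p n.primeFactors) (Finset.subset_insert _ _)]
  have h1 : ∀ q ∈ insert p n.primeFactors, vl P s (fl p ω) q ^ n.factorization q =
      (if q = p then (-1) ^ n.factorization p else 1) * vl P s ω q ^ n.factorization q := by
    intro q _
    by_cases hq : q = p
    · rw [if_pos hq, hq, vl_fl' P s hp, neg_pow]
    · rw [if_neg hq, vl_fl P s hq, one_mul]
  rw [Finset.prod_congr rfl h1, Finset.prod_mul_distrib, Finset.prod_ite_eq', if_pos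
    (Finset.mem_insert_self _ _)]

variable {s : ℕ → ℝ}

lemma abs_vl (P : Set ℕ) (hs : ∀ p, s p = 1 ∨ s p = -1) (ω : ℕ → Bool) (p : ℕ) : |vl P s ω p| = 1 := by
  unfold vl
  split_ifs
  · rcases signs.sign p ω with h | h <;> rw [h] <;> simp
  · rcases hs p with h | h <;> rw [h] <;> simp

lemma abs_mv (P : Set ℕ) (hs : ∀ p, s p = 1 ∨ s p = -1) (ω : ℕ → Bool) (n : ℕ) :
    |mult (vl P s ω) n| = 1 := abs_mult _ (abs_vl P hs ω) n

lemma meas_mv (P : Set ℕ) (s : ℕ → ℝ) (n : ℕ) : Measurable fun ω => mult (vl P s ω) n := by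
  unfold mult
  exact Finset.measurable_fun_prod _ fun p _ => (meas_vl P s p).pow_const _

lemma int_mv (P : Set ℕ) (hs : ∀ p, s p = 1 ∨ s p = -1) (n : ℕ) :
    Integrable (fun ω => mult (vl P s ω) n) cm :=
  Integrable.of_bound (meas_mv P s n).aestronglyMeasurable 1 (Filter.Eventually.of_forall fun ω => by
    rw [Real.norm_eq_abs, abs_mv P hs])

lemma mean_mv (P : Set ℕ) (n : ℕ) {q : ℕ} (hq : q ∈ P)
    (hodd : Odd (n.factorization q)) : ∫ ω, mult (vl P s ω) n ∂cm = 0 := by
  have h1 : ∫ ω, mult (vl P s (fl q ω)) n ∂cm = ∫ ω, mult (vl P s ω) n ∂cm := by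
    have h2 := integral_map (μ := cm) (φ := fl q) (mp_fl q).measurable.aemeasurable
      (f := fun ω => mult (vl P s ω) n) (meas_mv P s n).aestronglyMeasurable
    rw [(mp_fl q).map_eq] at h2
    exact h2.symm
  simp_rw [mult_vl_fl P s hq, hodd.neg_one_pow] at h1
  rw [integral_const_mul] at h1
  linarith

lemma abs_mean_mv (P : Set ℕ) (hs : ∀ p, s p = 1 ∨ s p = -1) (n : ℕ) :
    |∫ ω, mult (vl P s ω) n ∂cm| ≤ 1 := by
  refine (abs_integral_le_integral_abs).trans ?_
  simp_rw [abs_mv P hs]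
  simp

/-- the moments of a sum over integers with the same part outside of `P` -/
theorem mom_part (P : Set ℕ) (hs : ∀ p, s p = 1 ∨ s p = -1) (k : ℕ) (w : ℕ → ℝ)
    (hw : ∀ n, |w n| ≤ 1) (R q : ℕ) (hq : 1 ≤ q) (F : Finset ℕ)
    (hF : ∀ n ∈ F, 1 ≤ n ∧ n ≤ R ∧ pp Pᶜ n = q) :
    ∫ ω, (∑ n ∈ F, w n * mult (vl P s ω) n) ^ (2 * k) ∂cm ≤
      (((Fintype.piFinset fun _ : Fin (2 * k) => Icc 1 (R / q)).filter
        fun t => IsSquare (∏ i, t i)).card : ℝ) := by
  classical
  have e1 : ∀ ω, (∑ n ∈ F, w n * mult (vl P s ω) n) ^ (2 * k) =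
      ∑ t ∈ Fintype.piFinset fun _ : Fin (2 * k) => F, (∏ i, w (t i)) *
        mult (vl P s ω) (∏ i, t i) := by
    intro ω
    have h1 : (∑ n ∈ F, w n * mult (vl P s ω) n) ^ (2 * k) =
        ∏ _i : Fin (2 * k), ∑ n ∈ F, w n * mult (vl P s ω) n := by
      simp
    rw [h1, prod_univ_sum]
    refine sum_congr rfl fun t ht => ?_
    rw [Fintype.mem_piFinset] at ht
    rw [prod_mul_distrib, mult_prod _ _ _ fun i _ => by have := (hF _ (ht i)).1; omega]
  simp_rw [e1]
  rw [integral_finsetSum _ fun t _ => (int_mv P hs _).const_mul _]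
  simp_rw [integral_const_mul]
  set G := (Fintype.piFinset fun _ : Fin (2 * k) => F).filter
    fun t => IsSquare (∏ i, pp P (t i)) with hG
  have h2 : ∑ t ∈ Fintype.piFinset fun _ : Fin (2 * k) => F, (∏ i, w (t i)) *
      ∫ ω, mult (vl P s ω) (∏ i, t i) ∂cm ≤
      ∑ t ∈ Fintype.piFinset fun _ : Fin (2 * k) => F, if IsSquare (∏ i, pp P (t i)) then 1 else 0 := by
    refine sum_le_sum fun t ht => ?_
    rw [Fintype.mem_piFinset] at ht
    have hne : ∀ i ∈ (univ : Finset (Fin (2 * k))), t i ≠ 0 := fun i _ => by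
      have := (hF _ (ht i)).1
      omega
    split_ifs with h
    · refine (le_abs_self _).trans ?_
      rw [abs_mul, abs_prod]
      have h3 : ∏ i, |w (t i)| ≤ 1 := prod_le_one (fun i _ => abs_nonneg _) fun i _ => hw _
      have := mul_le_mul h3 (abs_mean_mv P hs (∏ i, t i)) (abs_nonneg _) zero_le_one
      linarith
    · rw [← pp_prod P _ _ hne] at h
      have h4 : ¬ ∀ p ∈ P, Even ((∏ i, t i).factorization p) := fun h5 => h (pp_sq P h5)
      push Not at h4
      obtain ⟨p, hp, hodd⟩ := h4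
      rw [mean_mv P _ hp (Nat.not_even_iff_odd.1 hodd), mul_zero]
  refine h2.trans ?_
  rw [← sum_filter, sum_const, nsmul_eq_mul, mul_one]
  have h5 : ((Fintype.piFinset fun _ : Fin (2 * k) => F).filter
      fun t => IsSquare (∏ i, pp P (t i))).card ≤
      ((Fintype.piFinset fun _ : Fin (2 * k) => Icc 1 (R / q)).filter
        fun t => IsSquare (∏ i, t i)).card := by
    refine card_le_card_of_injOn (fun t i => pp P (t i)) ?_ ?_
    · intro t ht
      rw [mem_coe, mem_filter, Fintype.mem_piFinset] at ht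
      rw [mem_coe, mem_filter, Fintype.mem_piFinset]
      refine ⟨fun i => ?_, ht.2⟩
      obtain ⟨h6, h7, h8⟩ := hF _ (ht.1 i)
      rw [mem_Icc]
      refine ⟨pp_pos P _, ?_⟩
      rw [Nat.le_div_iff_mul_le (by omega), mul_comm, ← h8, pp_compl P (by omega)]
      exact h7
    · intro t ht t' ht' h
      rw [mem_coe, mem_filter, Fintype.mem_piFinset] at ht ht'
      funext i
      obtain ⟨h6, h7, h8⟩ := hF _ (ht.1 i)
      obtain ⟨h6', h7', h8'⟩ := hF _ (ht'.1 i)
      have h9 : pp P (t i) = pp P (t' i) := congrFun h i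
      rw [← pp_compl P (by omega : t i ≠ 0), ← pp_compl P (by omega : t' i ≠ 0), h8, h8', h9]
  exact_mod_cast h5

end Pool.Agent.Q163.EX
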