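import Pool.Agent.Q163.EX.Part

/-! The sum of `q ^ (-σ)` over integers composed of the primes outside of `P`. -/

set_option autoImplicit false

namespace Pool.Agent.Q163.EX

open Finset MeasureTheory Pool.Agent.Q163.RP Pool.Agent.Q163.RX Pool.Agent.Q163.WM

open Classical in
/-- the value at a prime -/
noncomputable def cq (Q : Set ℕ) (σ : ℝ) (p : ℕ) : ℝ := if p ∈ Q then (p : ℝ) ^ (-σ) else 0

/-- the completely multiplicative function -/
noncomputable def hq (Q : Set ℕ) (σ : ℝ) : ℕ →* ℝ where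
  toFun n := if n = 0 then 0 else mult (cq Q σ) n
  map_one' := by rw [if_neg one_ne_zero, mult_one]
  map_mul' m n := by
    by_cases hm : m = 0
    · simp [hm]
    by_cases hn : n = 0
    · simp [hn]
    rw [if_neg (mul_ne_zero hm hn), if_neg hm, if_neg hn, mult_mul _ hm hn]

lemma cq_nonneg (Q : Set ℕ) (σ : ℝ) (p : ℕ) : 0 ≤ cq Q σ p := by
  unfold cq
  split_ifs <;> positivity

lemma hq_prime (Q : Set ℕ) (σ : ℝ) {p : ℕ} (hp : p.Prime) : hq Q σ p = cq Q σ p := by
  show (if p = 0 then 0 else mult (cq Q σ) p) = _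
  rw [if_neg hp.ne_zero]
  unfold mult
  rw [hp.primeFactors, prod_singleton, hp.factorization_self, pow_one]

lemma hq_nonneg (Q : Set ℕ) (σ : ℝ) (n : ℕ) : 0 ≤ hq Q σ n := by
  show 0 ≤ (if n = 0 then 0 else mult (cq Q σ) n)
  split_ifs
  · exact le_rfl
  · exact prod_nonneg fun p _ => pow_nonneg (cq_nonneg Q σ p) _

/-- the value at a `Q`-integer -/
lemma hq_val (Q : Set ℕ) (σ : ℝ) {n : ℕ} (hn : n ≠ 0) (h : ∀ p ∈ n.primeFactors, p ∈ Q) :
    hq Q σ n = (n : ℝ) ^ (-σ) := by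
  show (if n = 0 then 0 else mult (cq Q σ) n) = _
  rw [if_neg hn]
  unfold mult
  have h1 : (n : ℝ) = ∏ p ∈ n.primeFactors, ((p : ℝ) ^ n.factorization p) := by
    conv_lhs => rw [← Nat.prod_factorization_pow_eq_self hn]
    rw [Finsupp.prod, Nat.support_factorization]
    push_cast
    rfl
  rw [h1, ← Real.finsetProd_rpow _ _ fun p _ => by positivity]
  refine prod_congr rfl fun p hp => ?_
  unfold cq
  rw [if_pos (h p hp), ← Real.rpow_natCast, ← Real.rpow_natCast, ← Real.rpow_mul (by positivity),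
    ← Real.rpow_mul (by positivity), mul_comm]

lemma hq_zero (Q : Set ℕ) (σ : ℝ) {n : ℕ} (hn : n ≠ 0) {p : ℕ} (hp : p ∈ n.primeFactors) (h : p ∉ Q) :
    hq Q σ n = 0 := by
  show (if n = 0 then 0 else mult (cq Q σ) n) = _
  rw [if_neg hn]
  unfold mult
  refine prod_eq_zero hp ?_
  unfold cq
  rw [if_neg h, zero_pow]
  rw [← Nat.support_factorization, Finsupp.mem_support_iff] at hp
  exact hp

lemma cq_le (Q : Set ℕ) {σ : ℝ} (hσ : 1 / 2 ≤ σ) {p : ℕ} (hp : p.Prime) : cq Q σ p ≤ 3 / 4 := by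
  unfold cq
  split_ifs
  · have hp2 : (2 : ℝ) ≤ p := by exact_mod_cast hp.two_le
    calc (p : ℝ) ^ (-σ) ≤ (p : ℝ) ^ (-(1 / 2) : ℝ) :=
          Real.rpow_le_rpow_of_exponent_le (by linarith) (by linarith)
      _ ≤ (2 : ℝ) ^ (-(1 / 2) : ℝ) := Real.rpow_le_rpow_of_nonpos (by norm_num) hp2 (by norm_num)
      _ ≤ 3 / 4 := by
        rw [Real.rpow_neg (by norm_num), ← Real.sqrt_eq_rpow, inv_le_comm₀ (by positivity) (by norm_num)]
        rw [Real.le_sqrt (by norm_num) (by norm_num)]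
        norm_num
  · norm_num

/-- the bound -/
theorem sum_hq (Q : Set ℕ) (σ : ℝ) (hσ : 1 / 2 ≤ σ)
    (hQ : Summable fun p : ℕ => if p.Prime then cq Q σ p else 0) (F : Finset ℕ) (hF : 0 ∉ F) :
    ∑ n ∈ F, hq Q σ n ≤ Real.exp (4 * ∑' p : ℕ, if p.Prime then cq Q σ p else 0) := by
  classical
  set S : Finset ℕ := range (F.sup id + 1) with hS
  have h1 := EulerProduct.summable_and_hasSum_factoredNumbers_prod_filter_prime_geometric
    (f := hq Q σ) (fun {p} hp => by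
      rw [hq_prime Q σ hp, Real.norm_eq_abs, abs_of_nonneg (cq_nonneg Q σ p)]
      linarith [cq_le Q hσ hp]) S
  have hmem : ∀ n ∈ F, n ∈ Nat.factoredNumbers S := by
    intro n hn
    have hn0 : n ≠ 0 := fun h => hF (h ▸ hn)
    rw [Nat.mem_factoredNumbers_iff_forall_le]
    refine ⟨hn0, fun p hpn hp hd => ?_⟩
    rw [hS, mem_range]
    have : n ≤ F.sup id := le_sup (f := id) hn
    omega
  have h2 : ∑ n ∈ F, hq Q σ n ≤ ∏ p ∈ S with p.Prime, (1 - hq Q σ p)⁻¹ := by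
    have h3 : ∑ n ∈ F, hq Q σ n = ∑ m ∈ F.attach.map ⟨fun n => (⟨n.1, hmem n.1 n.2⟩ :
        Nat.factoredNumbers S), fun a b h => Subtype.ext (by simpa using h)⟩, hq Q σ m := by
      rw [sum_map]
      exact (sum_attach F fun n => hq Q σ n).symm
    rw [h3]
    exact sum_le_hasSum _ (fun m _ => hq_nonneg Q σ _) h1.2
  refine h2.trans ?_
  have h3 : ∀ p ∈ S.filter Nat.Prime, (1 - hq Q σ p)⁻¹ ≤ Real.exp (4 * cq Q σ p) := by
    intro p hp
    have hpp := (mem_filter.1 hp).2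
    rw [hq_prime Q σ hpp]
    have h4 := cq_le Q hσ hpp
    have h5 := cq_nonneg Q σ p
    have h6 : (1 - cq Q σ p)⁻¹ ≤ 1 + 4 * cq Q σ p := by
      rw [inv_le_comm₀ (by linarith) (by linarith), ← one_div, div_le_iff₀ (by linarith)]
      nlinarith
    have := Real.add_one_le_exp (4 * cq Q σ p)
    linarith
  refine (prod_le_prod (fun p hp => ?_) h3).trans ?_
  · have hpp := (mem_filter.1 hp).2
    rw [hq_prime Q σ hpp]
    have h4 := cq_le Q hσ hpp
    exact inv_nonneg.2 (by linarith)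
  · rw [← Real.exp_sum, ← mul_sum]
    apply Real.exp_le_exp.2
    refine mul_le_mul_of_nonneg_left ?_ (by norm_num)
    rw [sum_filter]
    exact hQ.sum_le_tsum S fun p _ => by
      split_ifs
      · exact cq_nonneg Q σ p
      · exact le_rfl

/-- the moments -/
theorem mom_all (P : Set ℕ) {s : ℕ → ℝ} (hs : ∀ p, s p = 1 ∨ s p = -1) (k : ℕ) (hk : 1 ≤ k) (σ : ℝ)
    (hσ : 1 / 2 < σ) (hQ : Summable fun p : ℕ => if p.Prime then cq Pᶜ σ p else 0) :
    ∃ C : ℝ, 0 < C ∧ ∀ (w : ℕ → ℝ), (∀ n, |w n| ≤ 1) → ∀ R : ℕ, 1 ≤ R →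
    ∫ ω, (∑ n ∈ Icc 1 R, w n * mult (vl P s ω) n) ^ (2 * k) ∂cm ≤ C * (R : ℝ) ^ (2 * k * σ) := by
  classical
  have hkR : (1 : ℝ) ≤ k := by exact_mod_cast hk
  set δ : ℝ := 2 * k * (σ - 1 / 2) with hδ
  have hδ0 : 0 < δ := by
    have : 0 < σ - 1 / 2 := by linarith
    positivity
  have hδk : (k : ℝ) + δ = 2 * k * σ := by rw [hδ]; ring
  obtain ⟨C, hC, hC2⟩ := tuples k hk δ hδ0
  set Z : ℝ := Real.exp (4 * ∑' p : ℕ, if p.Prime then cq Pᶜ σ p else 0) with hZ
  have hZ0 : 0 < Z := Real.exp_pos _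
  refine ⟨C * Z ^ (2 * k), by positivity, fun w hw R hR => ?_⟩
  have hRR : (1 : ℝ) ≤ R := by exact_mod_cast hR
  set G : Finset ℕ := (Icc 1 R).image (pp Pᶜ) with hG
  have hGm : ∀ q ∈ G, 1 ≤ q ∧ q ≤ R ∧ ∀ p ∈ q.primeFactors, p ∈ Pᶜ := by
    intro q hq
    rw [hG, mem_image] at hq
    obtain ⟨n, hn, rfl⟩ := hq
    rw [mem_Icc] at hn
    refine ⟨pp_pos _ _, ?_, ?_⟩
    · refine (Nat.le_of_dvd (by omega) ?_).trans hn.2
      have h := pp_compl P (by omega : n ≠ 0)
      exact ⟨pp P n, h.symm⟩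
    · intro p hp
      rw [Nat.mem_primeFactors] at hp
      obtain ⟨hpp, hpd, _⟩ := hp
      unfold pp at hpd
      rw [Prime.dvd_finsetProd_iff hpp.prime] at hpd
      obtain ⟨r, hr, hpr⟩ := hpd
      by_cases hrP : r ∈ Pᶜ
      · rw [if_pos hrP] at hpr
        have h2 := (Nat.prime_dvd_prime_iff_eq hpp (Nat.prime_of_mem_primeFactors hr)).1
          (hpp.dvd_of_dvd_pow hpr)
        rwa [h2]
      · rw [if_neg hrP] at hpr
        exact absurd (Nat.dvd_one.1 hpr) hpp.one_lt.ne'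
  set β : ℕ → ℝ := fun q => ((R : ℝ) / q) ^ σ with hβ
  have hβ0 : ∀ q ∈ G, 0 < β q := by
    intro q hq
    have : (0 : ℝ) < q := by exact_mod_cast (hGm q hq).1
    rw [hβ]
    positivity
  set B : ℝ := ∑ q ∈ G, β q with hB
  have hGne : G.Nonempty := ⟨pp Pᶜ 1, mem_image_of_mem _ (mem_Icc.2 ⟨le_rfl, hR⟩)⟩
  have hB0 : 0 < B := sum_pos hβ0 hGne
  have hBle : B ≤ (R : ℝ) ^ σ * Z := by
    have h1 : B = (R : ℝ) ^ σ * ∑ q ∈ G, hq Pᶜ σ q := by
      rw [hB, mul_sum]
      refine sum_congr rfl fun q hq => ?_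
      have hq1 : (0 : ℝ) < q := by exact_mod_cast (hGm q hq).1
      rw [hq_val Pᶜ σ (by have := (hGm q hq).1; omega) (hGm q hq).2.2]
      simp only [hβ]
      rw [Real.div_rpow (by positivity) (by positivity), Real.rpow_neg (by positivity), div_eq_mul_inv]
    rw [h1]
    refine mul_le_mul_of_nonneg_left (sum_hq Pᶜ σ hσ.le hQ G ?_) (by positivity)
    intro h0
    have := (hGm 0 h0).1
    omega
  set S : ℕ → (ℕ → Bool) → ℝ := fun q ω => ∑ n ∈ (Icc 1 R).filter (fun n => pp Pᶜ n = q),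
    w n * mult (vl P s ω) n with hS
  have hmS : ∀ q, Measurable (S q) := fun q =>
    Finset.measurable_fun_sum _ fun n _ => (meas_mv P s n).const_mul _
  have hbS : ∀ q ω, |S q ω| ≤ R := by
    intro q ω
    refine (abs_sum_le_sum_abs _ _).trans ?_
    refine (sum_le_sum (g := fun _ => (1 : ℝ)) fun n _ => ?_).trans ?_
    · rw [abs_mul, abs_mv P hs, mul_one]
      exact hw n
    · rw [sum_const, nsmul_eq_mul, mul_one]
      have : ((Icc 1 R).filter fun n => pp Pᶜ n = q).card ≤ R := by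
        calc _ ≤ (Icc 1 R).card := card_filter_le _ _
          _ = R := by rw [Nat.card_Icc, Nat.add_sub_cancel]
      exact_mod_cast this
  have hiS : ∀ q, Integrable (fun ω => S q ω ^ (2 * k)) cm := fun q =>
    Integrable.of_bound ((hmS q).pow_const _).aestronglyMeasurable ((R : ℝ) ^ (2 * k))
      (Filter.Eventually.of_forall fun ω => by
        rw [Real.norm_eq_abs, abs_pow]
        exact pow_le_pow_left₀ (abs_nonneg _) (hbS q ω) _)
  have hdec : ∀ ω, ∑ n ∈ Icc 1 R, w n * mult (vl P s ω) n = ∑ q ∈ G, S q ω := by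
    intro ω
    exact (sum_fiberwise_of_maps_to (fun n hn => mem_image_of_mem _ hn) _).symm
  have hpt : ∀ ω, (∑ n ∈ Icc 1 R, w n * mult (vl P s ω) n) ^ (2 * k) ≤
      B ^ (2 * k) * ∑ q ∈ G, β q / B * ((1 / β q) ^ (2 * k) * S q ω ^ (2 * k)) := by
    intro ω
    have h1 := Real.pow_arith_mean_le_arith_mean_pow_of_even G (fun q => β q / B)
      (fun q => 1 / β q * S q ω) (fun q hq => div_nonneg (hβ0 q hq).le hB0.le)
      (by rw [← sum_div, ← hB, div_self hB0.ne']) (even_two_mul k)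
    have h2 : ∑ q ∈ G, β q / B * (1 / β q * S q ω) = (∑ q ∈ G, S q ω) / B := by
      rw [sum_div]
      refine sum_congr rfl fun q hq => ?_
      have := (hβ0 q hq).ne'
      field_simp
    rw [h2, div_pow] at h1
    rw [hdec]
    rw [div_le_iff₀ (by positivity)] at h1
    rw [mul_comm (B ^ (2 * k))]
    refine h1.trans (le_of_eq ?_)
    congr 1
    refine sum_congr rfl fun q _ => ?_
    rw [mul_pow]
  have h3 : ∫ ω, (∑ n ∈ Icc 1 R, w n * mult (vl P s ω) n) ^ (2 * k) ∂cm ≤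
      ∫ ω, B ^ (2 * k) * ∑ q ∈ G, β q / B * ((1 / β q) ^ (2 * k) * S q ω ^ (2 * k)) ∂cm := by
    refine integral_mono_of_nonneg (Filter.Eventually.of_forall fun ω => ?_) ?_
      (Filter.Eventually.of_forall hpt)
    · exact (even_two_mul k).pow_nonneg _
    · exact (integrable_finsetSum _ fun q _ => ((hiS q).const_mul _).const_mul _).const_mul _
  refine h3.trans ?_
  rw [integral_const_mul, integral_finsetSum _ fun q _ => ((hiS q).const_mul _).const_mul _]
  have h4 : ∀ q ∈ G, ∫ ω, β q / B * ((1 / β q) ^ (2 * k) * S q ω ^ (2 * k)) ∂cm ≤ β q / B * C := by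
    intro q hq
    rw [integral_const_mul, integral_const_mul]
    refine mul_le_mul_of_nonneg_left ?_ (div_nonneg (hβ0 q hq).le hB0.le)
    have h5 := mom_part P hs k w hw R q (hGm q hq).1 ((Icc 1 R).filter (fun n => pp Pᶜ n = q))
      (fun n hn => by
        rw [mem_filter, mem_Icc] at hn
        exact ⟨hn.1.1, hn.1.2, hn.2⟩)
    have h6 := h5.trans (hC2 (R / q))
    have hq1 : (0 : ℝ) < q := by exact_mod_cast (hGm q hq).1
    have h7 : (((R / q : ℕ) : ℝ)) ^ ((k : ℝ) + δ) ≤ β q ^ (2 * k) := by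
      rw [hδk]
      have h8 : ((R / q : ℕ) : ℝ) ≤ (R : ℝ) / q := Nat.cast_div_le
      have h9 : β q ^ (2 * k) = ((R : ℝ) / q) ^ (2 * k * σ) := by
        simp only [hβ]
        rw [← Real.rpow_natCast, ← Real.rpow_mul (by positivity)]
        push_cast
        congr 1
        ring
      rw [h9]
      exact Real.rpow_le_rpow (by positivity) h8 (by positivity)
    have hb := hβ0 q hq
    calc (1 / β q) ^ (2 * k) * ∫ ω, S q ω ^ (2 * k) ∂cm
        ≤ (1 / β q) ^ (2 * k) * (C * β q ^ (2 * k)) := by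
          refine mul_le_mul_of_nonneg_left (h6.trans ?_) (by positivity)
          exact mul_le_mul_of_nonneg_left h7 (by linarith)
      _ = C := by
          rw [div_pow, one_pow]
          field_simp
  calc B ^ (2 * k) * ∑ q ∈ G, ∫ ω, β q / B * ((1 / β q) ^ (2 * k) * S q ω ^ (2 * k)) ∂cm
      ≤ B ^ (2 * k) * ∑ q ∈ G, β q / B * C := mul_le_mul_of_nonneg_left (sum_le_sum h4) (by positivity)
    _ = B ^ (2 * k) * C := by
        rw [← sum_mul, ← sum_div, ← hB, div_self hB0.ne', one_mul]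
    _ ≤ ((R : ℝ) ^ σ * Z) ^ (2 * k) * C := by
        refine mul_le_mul_of_nonneg_right (pow_le_pow_left₀ hB0.le hBle _) (by linarith)
    _ = C * Z ^ (2 * k) * (R : ℝ) ^ (2 * k * σ) := by
        rw [mul_pow, ← Real.rpow_natCast ((R : ℝ) ^ σ), ← Real.rpow_mul (by positivity)]
        push_cast
        rw [mul_comm σ]
        ring

end Pool.Agent.Q163.EX
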